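import Mathlib

/-!
Zero estimate for polynomials `∑ c k l X^k Y^l` at the points `(r b + s a, p^r q^s)`.
-/

set_option autoImplicit false

namespace Pool.Agent.H15.LFL

open Finset Polynomial

lemma natDegree_det_le' {m d : ℕ} (D : Matrix (Fin m) (Fin m) ℝ[X])
    (h : ∀ r t, (D r t).natDegree ≤ d) : D.det.natDegree ≤ m * d := by
  rw [Matrix.det_apply]
  apply natDegree_sum_le_of_forall_le
  intro g _
  calc
    natDegree (Equiv.Perm.sign g • ∏ i, D (g i) i) ≤ natDegree (∏ i, D (g i) i) := by
      rcases Int.units_eq_one_or (Equiv.Perm.sign g) with sg | sg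
      · rw [sg, one_smul]
      · rw [sg, Units.neg_smul, one_smul, natDegree_neg]
    _ ≤ ∑ i, natDegree (D (g i) i) := natDegree_prod_le _ _
    _ ≤ ∑ _i : Fin m, d := sum_le_sum (fun i _ => h _ _)
    _ = m * d := by simp

lemma tendsto_div_pow (Q : ℝ[X]) (hQ : Q ≠ 0) :
    Filter.Tendsto (fun x : ℝ => (x ^ Q.natDegree)⁻¹ * Q.eval x) Filter.atTop
      (nhds Q.leadingCoeff) := by
  have h := Polynomial.div_tendsto_atTop_leadingCoeff_div_of_degree_eq Q (X ^ Q.natDegree)
    (by rw [degree_X_pow, degree_eq_natDegree hQ])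
  simp only [leadingCoeff_X_pow, div_one, eval_pow, eval_X] at h
  refine h.congr (fun x => ?_)
  rw [div_eq_inv_mul]

theorem zero_estimate (K L M : ℕ) (p q a b : ℕ) (hp : 2 ≤ p) (hq : 1 ≤ q)
    (hab : Nat.Coprime a b) (ha : M ≤ a) (ha1 : 1 ≤ a)
    (hM : L * (K - 1) < M * M) (c : Fin K → Fin L → ℝ)
    (h : ∀ r s : ℕ, r < M + L → s < M →
      ∑ k : Fin K, ∑ l : Fin L,
        c k l * (((r * b + s * a : ℕ) : ℝ) ^ (k : ℕ) * ((p ^ r * q ^ s : ℕ) : ℝ) ^ (l : ℕ)) = 0) :
    c = 0 := by
  classical
  set P : Fin L → ℝ[X] := fun l => ∑ k : Fin K, C (c k l) * X ^ (k : ℕ) with hP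
  have hPcoeff : ∀ l (k : Fin K), (P l).coeff k = c k l := by
    intro l k
    simp only [hP, finsetSum_coeff, coeff_C_mul, coeff_X_pow]
    rw [Finset.sum_eq_single k]
    · simp
    · intro j _ hj
      have : (k : ℕ) ≠ j := fun h => hj (Fin.ext h.symm)
      simp [this]
    · simp
  have hPdeg : ∀ l, (P l).natDegree ≤ K - 1 := by
    intro l
    apply natDegree_sum_le_of_forall_le
    intro k _
    refine (natDegree_C_mul_X_pow_le _ _).trans ?_
    have := k.2
    omega
  by_contra hc
  set S : Finset (Fin L) := univ.filter (fun l => P l ≠ 0) with hS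
  have hSne : S.Nonempty := by
    by_contra hne
    rw [Finset.not_nonempty_iff_eq_empty] at hne
    apply hc
    ext k l
    have : P l = 0 := by
      by_contra h0
      have : l ∈ S := by simp [hS, h0]
      rw [hne] at this
      simp at this
    rw [← hPcoeff l k, this]
    simp
  set m := S.card with hm
  have hmL : m ≤ L := by
    have := card_le_univ S
    simpa using this
  have hmpos : 0 < m := card_pos.mpr hSne
  set e : Fin m → Fin L := fun t => S.orderEmbOfFin hm.symm t with he
  have heinj : Function.Injective e := (S.orderEmbOfFin hm.symm).injective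
  have heS : ∀ t, P (e t) ≠ 0 := by
    intro t
    have : e t ∈ S := S.orderEmbOfFin_mem hm.symm t
    simpa [hS] using this
  have heimg : univ.image e = S := by
    apply Finset.eq_of_subset_of_card_le
    · intro x hx
      simp only [mem_image, mem_univ, true_and] at hx
      obtain ⟨t, rfl⟩ := hx
      exact S.orderEmbOfFin_mem hm.symm t
    · rw [card_image_of_injective _ heinj]
      simp [hm]
  set D : Matrix (Fin m) (Fin m) ℝ[X] := Matrix.of fun r t =>
    (P (e t)).comp (X + C (((r : ℕ) * b : ℕ) : ℝ)) * C ((p : ℝ) ^ ((r : ℕ) * (e t : ℕ))) with hD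
  have hDdeg : D.det.natDegree ≤ m * (K - 1) := by
    apply natDegree_det_le'
    intro r t
    simp only [hD, Matrix.of_apply]
    refine (natDegree_mul_C_le _ _).trans ?_
    rw [natDegree_comp, natDegree_X_add_C, mul_one]
    exact hPdeg _
  -- vanishing
  have hvan : ∀ r' s' : ℕ, r' < M → s' < M → D.det.eval ((r' * b + s' * a : ℕ) : ℝ) = 0 := by
    intro r' s' hr' hs'
    have h1 : D.det.eval ((r' * b + s' * a : ℕ) : ℝ)
        = (D.map (Polynomial.eval ((r' * b + s' * a : ℕ) : ℝ))).det := by
      have := RingHom.map_det (Polynomial.evalRingHom ((r' * b + s' * a : ℕ) : ℝ)) D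
      simpa [RingHom.mapMatrix_apply] using this
    rw [h1]
    rw [← Matrix.exists_mulVec_eq_zero_iff]
    refine ⟨fun t => ((p ^ r' * q ^ s' : ℕ) : ℝ) ^ (e t : ℕ), ?_, ?_⟩
    · intro h0
      have h2 := congrFun h0 ⟨0, hmpos⟩
      simp only [Pi.zero_apply] at h2
      have : (0:ℝ) < ((p ^ r' * q ^ s' : ℕ) : ℝ) ^ (e ⟨0, hmpos⟩ : ℕ) := by positivity
      linarith
    · ext r
      simp only [Matrix.mulVec, dotProduct, Matrix.map_apply, hD, Matrix.of_apply, Pi.zero_apply,
        eval_mul, eval_comp, eval_add, eval_X, eval_C]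
      have hsum := h (r' + r) s' (by have := r.2; omega) hs'
      rw [Finset.sum_comm] at hsum
      have hPe : ∀ l : Fin L, ∑ k : Fin K, c k l * ((((r' + r) * b + s' * a : ℕ) : ℝ) ^ (k : ℕ) *
          ((p ^ (r' + r) * q ^ s' : ℕ) : ℝ) ^ (l : ℕ)) =
          (P l).eval ((((r' + r) * b + s' * a : ℕ) : ℝ)) *
          ((p ^ (r' + r) * q ^ s' : ℕ) : ℝ) ^ (l : ℕ) := by
        intro l
        simp only [hP, eval_finsetSum, eval_mul, eval_C, eval_pow, eval_X, Finset.sum_mul]
        apply sum_congr rfl
        intro k _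
        ring
      simp only [hPe] at hsum
      have hS2 : ∑ l : Fin L, (P l).eval ((((r' + r) * b + s' * a : ℕ) : ℝ)) *
          ((p ^ (r' + r) * q ^ s' : ℕ) : ℝ) ^ (l : ℕ) =
          ∑ l ∈ S, (P l).eval ((((r' + r) * b + s' * a : ℕ) : ℝ)) *
          ((p ^ (r' + r) * q ^ s' : ℕ) : ℝ) ^ (l : ℕ) := by
        symm
        apply Finset.sum_subset (subset_univ _)
        intro l _ hl
        have : P l = 0 := by
          by_contra h0
          exact hl (by simp [hS, h0])
        simp [this]
      rw [hS2, ← heimg, Finset.sum_image (fun x _ y _ hxy => heinj hxy)] at hsum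
      rw [← hsum]
      apply sum_congr rfl
      intro t _
      have h3 : ((r' * b + s' * a : ℕ) : ℝ) + (((r : ℕ) * b : ℕ) : ℝ)
          = (((r' + r) * b + s' * a : ℕ) : ℝ) := by push_cast; ring
      rw [h3]
      push_cast
      ring
  -- many zeros
  have hDzero : D.det = 0 := by
    set pts : Finset ℝ := ((range M) ×ˢ (range M)).image
      (fun x : ℕ × ℕ => ((x.1 * b + x.2 * a : ℕ) : ℝ)) with hpts
    have hcard : pts.card = M * M := by
      rw [hpts, card_image_of_injOn]
      · simp
      · rintro ⟨r, s⟩ h1 ⟨r', s'⟩ h2 heq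
        simp only [coe_product, Set.mem_prod, coe_range, Set.mem_Iio] at h1 h2
        simp only at heq
        have heq' : r * b + s * a = r' * b + s' * a := by exact_mod_cast heq
        -- a ∣ (r - r') b
        have hz : ((r : ℤ) - r') * b = ((s' : ℤ) - s) * a := by
          have : ((r * b + s * a : ℕ) : ℤ) = ((r' * b + s' * a : ℕ) : ℤ) := by rw [heq']
          push_cast at this
          linarith
        have hdvd : (a : ℤ) ∣ ((r : ℤ) - r') * b := ⟨(s' : ℤ) - s, by rw [hz]; ring⟩
        have hcop : IsCoprime (a : ℤ) (b : ℤ) := Nat.isCoprime_iff_coprime.mpr hab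
        have hdvd2 : (a : ℤ) ∣ (r : ℤ) - r' := hcop.dvd_of_dvd_mul_right hdvd
        have habs : |(r : ℤ) - r'| < a := by
          rw [abs_lt]
          constructor <;> omega
        have hrr : (r : ℤ) - r' = 0 := Int.eq_zero_of_abs_lt_dvd hdvd2 habs
        have hr : r = r' := by omega
        subst hr
        simp only [sub_self, zero_mul] at hz
        have hss : ((s' : ℤ) - s) = 0 := by
          rcases mul_eq_zero.mp hz.symm with h | h
          · exact h
          · exfalso; omega
        have : s = s' := by omega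
        rw [this]
    apply eq_zero_of_natDegree_lt_card_of_eval_eq_zero' _ pts
    · intro x hx
      rw [hpts, mem_image] at hx
      obtain ⟨⟨r, s⟩, hrs, rfl⟩ := hx
      simp only [mem_product, mem_range] at hrs
      exact hvan r s hrs.1 hrs.2
    · rw [hcard]
      calc D.det.natDegree ≤ m * (K - 1) := hDdeg
        _ ≤ L * (K - 1) := Nat.mul_le_mul_right _ hmL
        _ < M * M := hM
  -- asymptotics
  have hlim : Filter.Tendsto (fun x : ℝ =>
      (Matrix.of fun r t : Fin m => (x ^ (P (e t)).natDegree)⁻¹ *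
        (D.map (Polynomial.eval x)) r t).det) Filter.atTop
      (nhds (Matrix.of fun r t : Fin m => (P (e t)).leadingCoeff *
        (p : ℝ) ^ ((r : ℕ) * (e t : ℕ))).det) := by
    have hcont : Continuous (fun M : Matrix (Fin m) (Fin m) ℝ => M.det) :=
      continuous_id.matrix_det
    apply (hcont.tendsto _).comp
    refine tendsto_pi_nhds.mpr fun r => tendsto_pi_nhds.mpr fun t => ?_
    simp only [Matrix.of_apply, Matrix.map_apply, hD, eval_mul, eval_C]
    set Q := (P (e t)).comp (X + C (((r : ℕ) * b : ℕ) : ℝ)) with hQ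
    have hQne : Q ≠ 0 := by
      intro h0
      rw [hQ] at h0
      rcases comp_eq_zero_iff.mp h0 with h1 | h1
      · exact heS t h1
      · have h2 : (X + C (((r : ℕ) * b : ℕ) : ℝ)).natDegree = 1 := natDegree_X_add_C _
        rw [h1.2, natDegree_C] at h2
        omega
    have hQdeg : Q.natDegree = (P (e t)).natDegree := by
      rw [hQ, natDegree_comp, natDegree_X_add_C, mul_one]
    have hQlead : Q.leadingCoeff = (P (e t)).leadingCoeff := by
      rw [hQ, leadingCoeff_comp (by rw [natDegree_X_add_C]; norm_num), leadingCoeff_X_add_C]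
      simp
    have h1 := tendsto_div_pow Q hQne
    rw [hQdeg, hQlead] at h1
    have h2 := h1.mul_const ((p : ℝ) ^ ((r : ℕ) * (e t : ℕ)))
    refine h2.congr (fun x => ?_)
    ring
  have hzero : ∀ x : ℝ, (Matrix.of fun r t : Fin m => (x ^ (P (e t)).natDegree)⁻¹ *
        (D.map (Polynomial.eval x)) r t).det = 0 := by
    intro x
    rw [Matrix.det_mul_row (fun t => (x ^ (P (e t)).natDegree)⁻¹)]
    have : (D.map (Polynomial.eval x)).det = 0 := by
      have := RingHom.map_det (Polynomial.evalRingHom x) D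
      rw [hDzero] at this
      simpa [RingHom.mapMatrix_apply] using this.symm
    rw [this, mul_zero]
  have hfin : (Matrix.of fun r t : Fin m => (P (e t)).leadingCoeff *
        (p : ℝ) ^ ((r : ℕ) * (e t : ℕ))).det = 0 := by
    refine tendsto_nhds_unique hlim ?_
    simp only [hzero]
    exact tendsto_const_nhds
  have hV : (Matrix.of fun r t : Fin m => (p : ℝ) ^ ((r : ℕ) * (e t : ℕ))).det ≠ 0 := by
    have h1 : (Matrix.of fun r t : Fin m => (p : ℝ) ^ ((r : ℕ) * (e t : ℕ)))
        = (Matrix.vandermonde (fun t : Fin m => (p : ℝ) ^ (e t : ℕ))).transpose := by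
      ext r t
      simp only [Matrix.of_apply, Matrix.transpose_apply, Matrix.vandermonde_apply]
      rw [← pow_mul, mul_comm]
    rw [h1, Matrix.det_transpose, Matrix.det_vandermonde_ne_zero_iff]
    intro t t' htt
    simp only at htt
    have hp1 : (1 : ℝ) < p := by exact_mod_cast hp
    have := (pow_right_injective₀ (by linarith) (by linarith [hp1] : (p : ℝ) ≠ 1)) htt
    exact heinj (Fin.ext this)
  have hfin2 := Matrix.det_mul_row (fun t => (P (e t)).leadingCoeff)
    (Matrix.of fun r t : Fin m => (p : ℝ) ^ ((r : ℕ) * (e t : ℕ)))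
  simp only [Matrix.of_apply] at hfin2
  rw [hfin2] at hfin
  rcases mul_eq_zero.mp hfin with h1 | h1
  · rw [Finset.prod_eq_zero_iff] at h1
    obtain ⟨t, _, ht⟩ := h1
    exact heS t (leadingCoeff_eq_zero.mp ht)
  · exact hV h1

end Pool.Agent.H15.LFL
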