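import Mathlib
import Pool.Agent.H15.LFL.Schwarz
import Pool.Agent.H15.LFL.ZeroEst

/-!
An explicit lower bound for `|b log q - a log p|` (linear forms in two logarithms of
integers) by interpolation determinants.
-/

set_option autoImplicit false

namespace Pool.Agent.H15.LFL

open Finset

lemma exists_det_ne_zero {ι T : Type*} [Fintype ι] [DecidableEq ι] (w : T → ι → ℝ) (T' : Set T)
    (h : ∀ c : ι → ℝ, (∀ τ ∈ T', ∑ i, c i * w τ i = 0) → c = 0) :
    ∃ j : ι → T, (∀ i, j i ∈ T') ∧ (Matrix.of fun i i' => w (j i') i).det ≠ 0 := by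
  classical
  have hspan : Submodule.span ℝ (w '' T') = ⊤ := by
    by_contra hne
    have hlt : Submodule.span ℝ (w '' T') < ⊤ := lt_top_iff_ne_top.mpr hne
    obtain ⟨f, hf0, hf⟩ := Submodule.exists_le_ker_of_lt_top _ hlt
    apply hf0
    have hc := h (fun i => f (fun j => if i = j then 1 else 0)) (by
      intro τ hτ
      have h1 : w τ ∈ Submodule.span ℝ (w '' T') := Submodule.subset_span ⟨τ, hτ, rfl⟩
      have h2 : f (w τ) = 0 := hf h1
      rw [LinearMap.pi_apply_eq_sum_univ f (w τ)] at h2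
      refine Eq.trans (sum_congr rfl ?_) h2
      intro i _
      rw [smul_eq_mul, mul_comm])
    ext x
    have h3 : ∀ i, f (fun j => if i = j then (1:ℝ) else 0) = 0 := fun i => congrFun hc i
    simp only [LinearMap.coe_comp, Function.comp_apply, LinearMap.zero_apply, LinearMap.zero_comp]
    rw [LinearMap.pi_apply_eq_sum_univ f]
    simp [h3]
  obtain ⟨f, hfs, hfspan, hfind⟩ := Submodule.exists_fun_fin_finrank_span_eq ℝ (w '' T')
  have hrank : Module.finrank ℝ (Submodule.span ℝ (w '' T')) = Fintype.card ι := by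
    rw [hspan, finrank_top, Module.finrank_fintype_fun_eq_card]
  have e : ι ≃ Fin (Module.finrank ℝ (Submodule.span ℝ (w '' T'))) :=
    (Fintype.equivFin ι).trans (finCongr hrank.symm)
  choose g hg using hfs
  refine ⟨fun i => g (e i), fun i => (hg _).1, ?_⟩
  have hind : LinearIndependent ℝ (fun i : ι => w (g (e i))) := by
    have : (fun i : ι => w (g (e i))) = f ∘ e := by
      ext i
      simp [(hg _).2]
    rw [this]
    exact hfind.comp _ e.injective
  have h2 : (Matrix.of fun i i' => w (g (e i')) i) =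
      (Matrix.of fun i => w (g (e i))).transpose := by
    ext i i'
    simp
  rw [h2, Matrix.det_transpose]
  have h3 : IsUnit (Matrix.of fun i => w (g (e i))) :=
    Matrix.linearIndependent_rows_iff_isUnit.mp hind
  rw [Matrix.isUnit_iff_isUnit_det] at h3
  exact h3.ne_zero

/-- Core estimate. -/
theorem lfl_core (p q a b Y L : ℕ) (hp : 2 ≤ p) (hq : 2 ≤ q) (ha1 : 1 ≤ a) (hb1 : 1 ≤ b)
    (hab : Nat.Coprime a b) (hY : 1 ≤ Y) (hL1 : 1 ≤ L)
    (hpY : Real.log p ≤ Y) (hqY : Real.log q ≤ Y)
    (hMa : 145 * Y * L ≤ a)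
    (hL : 8 * (1 + Real.log (290 * Y * L * (a + b))) ≤ L) :
    Real.exp (-(20880 * (Y:ℝ) ^ 2 * (L:ℝ) ^ 2)) < |b * Real.log q - a * Real.log p| := by
  classical
  by_contra hcon
  rw [not_lt] at hcon
  set Λ : ℝ := b * Real.log q - a * Real.log p with hΛ
  set M : ℕ := 145 * Y * L with hM
  set K : ℕ := 144 * M * Y with hK
  have hYr : (1:ℝ) ≤ Y := by exact_mod_cast hY
  have hLr : (1:ℝ) ≤ L := by exact_mod_cast hL1
  have har : (1:ℝ) ≤ a := by exact_mod_cast ha1
  have hbr : (1:ℝ) ≤ b := by exact_mod_cast hb1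
  have hMr : (M:ℝ) = 145 * Y * L := by rw [hM]; push_cast; ring
  have hYLr : (1:ℝ) ≤ Y * L := one_le_mul_of_one_le_of_one_le hYr hLr
  have hM1 : (1:ℝ) ≤ M := by rw [hMr, mul_assoc]; linarith
  have hKr : (K:ℝ) = 144 * M * Y := by rw [hK]; push_cast; ring
  have hMpos : 1 ≤ M := by exact_mod_cast hM1
  have hLM : (L:ℝ) ≤ M := by
    rw [hMr]
    have : (L:ℝ) ≤ Y * L := le_mul_of_one_le_left (by linarith) hYr
    linarith
  have hKL : (K:ℝ) * L = 20880 * (Y:ℝ) ^ 2 * (L:ℝ) ^ 2 := by rw [hKr, hMr]; ring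
  have hlogp : 0 < Real.log p := Real.log_pos (by exact_mod_cast hp)
  have hlogq : 0 < Real.log q := Real.log_pos (by exact_mod_cast hq)
  -- the zero estimate
  have hzeroM : L * (K - 1) < M * M := by
    have h1 : L * K < M * M := by
      have : K * L = 144 * M * (Y * L) := by rw [hK]; ring
      have h2 : M * M = M * (145 * (Y * L)) := by rw [hM]; ring
      have hYL : 0 < Y * L := Nat.mul_pos hY hL1
      rw [Nat.mul_comm L K, this, h2]
      have h3 : 144 * M * (Y * L) = M * (144 * (Y * L)) := by ring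
      rw [h3]
      exact Nat.mul_lt_mul_of_pos_left (by omega) hMpos
    exact lt_of_le_of_lt (Nat.mul_le_mul_left _ (Nat.sub_le _ _)) h1
  obtain ⟨j, hjT, hdet⟩ := exists_det_ne_zero (ι := Fin K × Fin L) (T := ℕ × ℕ)
    (fun τ i => ((τ.1 * b + τ.2 * a : ℕ) : ℝ) ^ (i.1 : ℕ) * ((p ^ τ.1 * q ^ τ.2 : ℕ) : ℝ) ^ (i.2 : ℕ))
    {τ | τ.1 < M + L ∧ τ.2 < M} (by
      intro c hc
      have := zero_estimate K L M p q a b hp (by omega) hab hMa ha1 hzeroM
        (fun k l => c (k, l)) (by
          intro r s hr hs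
          have := hc (r, s) ⟨hr, hs⟩
          rw [← this, Fintype.sum_prod_type])
      ext ⟨k, l⟩
      exact congrFun (congrFun this k) l)
  clear_value K M
  set E : Matrix (Fin K × Fin L) (Fin K × Fin L) ℝ := Matrix.of fun i i' =>
    (((j i').1 * b + (j i').2 * a : ℕ) : ℝ) ^ (i.1 : ℕ) *
      ((p ^ (j i').1 * q ^ (j i').2 : ℕ) : ℝ) ^ (i.2 : ℕ) with hE
  -- integrality
  have hdet1 : 1 ≤ |E.det| := by
    set Z : Matrix (Fin K × Fin L) (Fin K × Fin L) ℤ := Matrix.of fun i i' =>
      (((j i').1 * b + (j i').2 * a : ℕ) : ℤ) ^ (i.1 : ℕ) *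
        ((p ^ (j i').1 * q ^ (j i').2 : ℕ) : ℤ) ^ (i.2 : ℕ) with hZ
    have h1 : E = Z.map (Int.castRingHom ℝ) := by
      ext i i'
      simp [hE, hZ]
    have h2 : E.det = (Z.det : ℝ) := by
      rw [h1]
      have := RingHom.map_det (Int.castRingHom ℝ) Z
      simpa [RingHom.mapMatrix_apply] using this.symm
    have h3 : Z.det ≠ 0 := by
      intro h0
      rw [h0] at h2
      exact hdet (by simpa using h2)
    rw [h2, ← Int.cast_abs]
    exact_mod_cast Int.one_le_abs h3
  -- analytic estimate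
  set X : ℝ := (M + L) * b + M * a with hX
  have hX1 : 1 ≤ X := by
    have h1 : 1 ≤ ((M:ℝ) + L) * b := one_le_mul_of_one_le_of_one_le (by linarith) hbr
    have h2 : 0 ≤ (M:ℝ) * a := by positivity
    rw [hX]
    linarith
  set c : ℝ := Real.log p / b with hc
  have hc0 : 0 ≤ c := by rw [hc]; positivity
  have hN : Fintype.card (Fin K × Fin L) = K * L := by simp
  have hEeq : E = Matrix.of fun i i' : Fin K × Fin L =>
      (fun i' => (((j i').1 * b + (j i').2 * a : ℕ) : ℝ)) i' ^ ((fun i : Fin K × Fin L => (i.1 : ℕ)) i) *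
      Real.exp (((fun i : Fin K × Fin L => (i.2 : ℕ)) i : ℕ) *
        (c * (fun i' => (((j i').1 * b + (j i').2 * a : ℕ) : ℝ)) i' +
          (fun i' => ((j i').2 : ℝ) * Λ / b) i')) := by
    ext i i'
    simp only [hE, Matrix.of_apply]
    congr 1
    have h1 : c * (((j i').1 * b + (j i').2 * a : ℕ) : ℝ) + ((j i').2 : ℝ) * Λ / b
        = (j i').1 * Real.log p + (j i').2 * Real.log q := by
      rw [hc, hΛ]
      push_cast
      field_simp
      ring
    rw [h1]
    have hp0 : (0:ℝ) < p := by positivity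
    have hq0 : (0:ℝ) < q := by positivity
    rw [Real.exp_nat_mul, Real.exp_add, Real.exp_nat_mul, Real.exp_nat_mul, Real.exp_log hp0,
      Real.exp_log hq0]
    push_cast
    ring
  have hschw := schwarz_exp (ι := Fin K × Fin L) (fun i => (i.1 : ℕ)) (fun i => (i.2 : ℕ))
    (fun i' => (((j i').1 * b + (j i').2 * a : ℕ) : ℝ))
    (fun i' => ((j i').2 : ℝ) * Λ / b) c X (M * |Λ| / b) (Real.exp 1) hc0 (by linarith)
    (by positivity) (by rw [← Real.exp_zero]; exact Real.exp_le_exp.mpr (by norm_num))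
    (by
      intro i'
      have h1 : (j i').1 < M + L := (hjT i').1
      have h2 : (j i').2 < M := (hjT i').2
      rw [abs_of_nonneg (by positivity), hX]
      push_cast
      have h1' : ((j i').1 : ℝ) ≤ M + L := by exact_mod_cast h1.le
      have h2' : ((j i').2 : ℝ) ≤ M := by exact_mod_cast h2.le
      exact add_le_add (mul_le_mul_of_nonneg_right h1' (by linarith))
        (mul_le_mul_of_nonneg_right h2' (by linarith)))
    (by
      intro i'
      have h2 : (j i').2 < M := (hjT i').2
      have h2' : ((j i').2 : ℝ) ≤ M := by exact_mod_cast h2.le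
      rw [abs_div, abs_mul, Nat.abs_cast, Nat.abs_cast]
      gcongr)
  rw [← hEeq, hN] at hschw
  clear_value E X c
  obtain ⟨N, hNdef⟩ : ∃ N : ℕ, N = K * L := ⟨_, rfl⟩
  rw [← hNdef] at hschw
  have hNr : (N:ℝ) = 20880 * (Y:ℝ) ^ 2 * (L:ℝ) ^ 2 := by rw [hNdef]; push_cast; exact hKL
  have hNbig : (20880:ℝ) ≤ N := by
    rw [hNr]
    have : (1:ℝ) ≤ (Y:ℝ)^2 * (L:ℝ)^2 :=
      one_le_mul_of_one_le_of_one_le (one_le_pow₀ hYr) (one_le_pow₀ hLr)
    linarith
  -- bound of W
  set W : ℝ := c * (Real.exp 1 * X) + Real.exp 1 ^ N * (M * |Λ| / b) with hW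
  have he1 : Real.exp 1 < 2.7182818286 := Real.exp_one_lt_d9
  have hexpN : Real.exp 1 ^ N * |Λ| ≤ 1 := by
    rw [← Real.exp_nat_mul, mul_one]
    calc Real.exp N * |Λ| ≤ Real.exp N * Real.exp (-(20880 * (Y:ℝ) ^ 2 * (L:ℝ) ^ 2)) := by
          gcongr
      _ = 1 := by rw [← Real.exp_add, hNr]; simp
  have hΛ1 : |Λ| ≤ 1 := by
    refine hcon.trans ?_
    rw [Real.exp_le_one_iff]
    have : 0 ≤ 20880 * (Y:ℝ) ^ 2 * (L:ℝ) ^ 2 := by positivity
    linarith
  have hcX : c * X ≤ 4 * M * Y := by
    have h1 : c * X = (M + L) * Real.log p + M * (a * Real.log p / b) := by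
      rw [hc, hX]
      field_simp
    have h2 : a * Real.log p / b ≤ Y + 1 := by
      have h3 : a * Real.log p = b * Real.log q - Λ := by rw [hΛ]; ring
      rw [h3, sub_div, mul_div_assoc, mul_comm, div_mul_cancel₀ _ (by positivity)]
      have h4 : -Λ / b ≤ 1 := by
        rw [div_le_one (by positivity)]
        have := neg_le_abs Λ
        linarith
      rw [neg_div] at h4
      linarith
    rw [h1]
    have h5 : (M + L) * Real.log p ≤ (M + M) * Y := by
      apply mul_le_mul (by linarith) hpY hlogp.le (by positivity)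
    have h6 : M * (a * Real.log p / b) ≤ M * (Y + 1) := by
      apply mul_le_mul_of_nonneg_left h2 (by positivity)
    have h7 : (M:ℝ) ≤ M * Y := le_mul_of_one_le_right (by linarith) hYr
    linarith
  have hW12 : W ≤ 12 * M * Y := by
    have h1 : c * (Real.exp 1 * X) = Real.exp 1 * (c * X) := by ring
    have h2 : Real.exp 1 ^ N * (M * |Λ| / b) ≤ M := by
      have h3 : Real.exp 1 ^ N * (M * |Λ| / b) = (Real.exp 1 ^ N * |Λ|) * (M / b) := by ring
      rw [h3]
      calc (Real.exp 1 ^ N * |Λ|) * (M / b) ≤ 1 * (M / b) := by gcongr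
        _ ≤ M := by
          rw [one_mul]
          exact div_le_self (by positivity) hbr
    have h4 : Real.exp 1 * (c * X) ≤ 2.7182818286 * (4 * M * Y) := by
      apply mul_le_mul he1.le hcX (by positivity) (by norm_num)
    have h5 : (M:ℝ) ≤ M * Y := le_mul_of_one_le_right (by linarith) hYr
    have h6 : 0 ≤ (M:ℝ) * Y := by positivity
    rw [hW, h1]
    linarith
  have hW0 : 0 ≤ W := by rw [hW]; positivity
  -- each factor
  set F : ℝ := (Real.exp 1 * X) ^ K * Real.exp (L * W) with hF
  have heX1 : 1 ≤ Real.exp 1 * X := by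
    have : 1 ≤ Real.exp 1 := by
      rw [← Real.exp_zero]; exact Real.exp_le_exp.mpr (by norm_num)
    exact one_le_mul_of_one_le_of_one_le this hX1
  have hF0 : 0 < F := by rw [hF]; positivity
  have hprod : ∏ i : Fin K × Fin L, ((Real.exp 1 * X) ^ (i.1 : ℕ) *
      Real.exp ((i.2 : ℕ) * (c * (Real.exp 1 * X) + Real.exp 1 ^ N * (M * |Λ| / b)))) ≤ F ^ N := by
    calc _ ≤ ∏ _i : Fin K × Fin L, F := by
          apply prod_le_prod
          · intro i _
            positivity
          · intro i _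
            rw [hF]
            apply mul_le_mul
            · exact pow_le_pow_right₀ heX1 i.1.2.le
            · apply Real.exp_le_exp.mpr
              rw [← hW]
              apply mul_le_mul_of_nonneg_right _ hW0
              exact_mod_cast i.2.2.le
            · positivity
            · positivity
      _ = F ^ N := by simp [hNdef]
  have hmain : Real.exp 1 ^ (N * (N - 1) / 2) ≤ (N:ℝ) ^ N * F ^ N := by
    calc Real.exp 1 ^ (N * (N - 1) / 2) ≤ |E.det| * Real.exp 1 ^ (N * (N - 1) / 2) := by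
          apply le_mul_of_one_le_left (by positivity) hdet1
      _ ≤ N.factorial * ∏ i : Fin K × Fin L, ((Real.exp 1 * X) ^ (i.1 : ℕ) *
      Real.exp ((i.2 : ℕ) * (c * (Real.exp 1 * X) + Real.exp 1 ^ N * (M * |Λ| / b)))) := hschw
      _ ≤ (N:ℝ) ^ N * F ^ N := by
          apply mul_le_mul _ hprod (by positivity) (by positivity)
          exact_mod_cast Nat.factorial_le_pow N
  -- take logs
  have hNpos : (0:ℝ) < N := by linarith
  have hlogmain : ((N * (N - 1) / 2 : ℕ) : ℝ) ≤ N * (Real.log N + Real.log F) := by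
    have h1 := Real.log_le_log (by positivity) hmain
    rw [Real.log_pow, Real.log_exp, mul_one, Real.log_mul (by positivity) (by positivity),
      Real.log_pow, Real.log_pow] at h1
    linarith
  have hhalf : ((N * (N - 1) / 2 : ℕ) : ℝ) = N * (N - 1) / 2 := by
    have hN1 : 1 ≤ N := by exact_mod_cast (by linarith : (1:ℝ) ≤ N)
    rw [Nat.cast_div (even_iff_two_dvd.mp (Nat.even_mul_pred_self N)) (by norm_num)]
    push_cast [Nat.cast_sub hN1]
    ring
  rw [hhalf] at hlogmain
  have hlog2 : (N - 1) / 2 ≤ Real.log N + Real.log F := by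
    have : N * ((N - 1) / 2) ≤ N * (Real.log N + Real.log F) := by linarith
    exact le_of_mul_le_mul_left this hNpos
  have hlogF : Real.log F = K * (1 + Real.log X) + L * W := by
    rw [hF, Real.log_mul (by positivity) (by positivity), Real.log_pow, Real.log_exp,
      Real.log_mul (by positivity) (by linarith), Real.log_exp]
  have hXbound : Real.log X ≤ Real.log (290 * Y * L * (a + b)) := by
    apply Real.log_le_log (by linarith)
    rw [hX]
    have : (M + L) * b + M * a ≤ (M + M) * b + (M + M) * (a:ℝ) :=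
      add_le_add (mul_le_mul_of_nonneg_right (by linarith) (by linarith))
        (mul_le_mul_of_nonneg_right (by linarith) (by linarith))
    refine this.trans (le_of_eq ?_)
    rw [hMr]
    ring
  have h8 : 8 * (1 + Real.log X) ≤ L := by linarith
  have hA : K * (1 + Real.log X) ≤ K * L / 8 := by
    have h9 : (0:ℝ) ≤ K := by positivity
    have h10 : K * (8 * (1 + Real.log X)) ≤ K * (L:ℝ) := mul_le_mul_of_nonneg_left h8 h9
    linarith
  have hB : L * W ≤ K * L / 12 := by
    have : L * W ≤ L * (12 * M * Y) := by gcongr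
    refine this.trans (le_of_eq ?_)
    rw [hKr]
    ring
  have hC : Real.log N ≤ N / 100 + 4 := by
    have h1 : Real.log N = Real.log (N / 100) + Real.log 100 := by
      rw [← Real.log_mul (by positivity) (by norm_num)]
      congr 1
      ring
    have h2 : Real.log (N / 100) ≤ N / 100 - 1 := Real.log_le_sub_one_of_pos (by positivity)
    have h3 : Real.log 100 ≤ 5 := by
      rw [Real.log_le_iff_le_exp (by norm_num)]
      have : (2.7182818283:ℝ) ^ 5 ≤ Real.exp 1 ^ 5 := by
        apply pow_le_pow_left₀ (by norm_num)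
        exact Real.exp_one_gt_d9.le
      rw [← Real.exp_nat_mul] at this
      norm_num at this ⊢
      linarith
    linarith
  have hKLN : (K:ℝ) * L = N := by rw [hNdef]; push_cast; ring
  rw [hlogF] at hlog2
  rw [hKLN] at hA hB
  linarith

end Pool.Agent.H15.LFL
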